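import Mathlib
import Pool.Agent.MP_9bf48e_al.H46.Nets

namespace Pool.Agent.Results.MP_9bf48e_al.Classification

open Pool.Agent.MP_9bf48e_al.H46

/-- Let `R` be a principal ideal domain with fraction field `k`, `K` an algebraic extension of `k`
and `n ≥ 2`. Every irreducible elementary net of order `n` of `R`-submodules of `K` is closed
if and only if `R = K`, or `n ≥ 3` and (`R` is a field or `K = k`). -/
theorem result (R k K : Type*) [CommRing R] [IsDomain R] [IsPrincipalIdealRing R]
    [Field k] [Algebra R k] [IsFractionRing R k]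
    [Field K] [Algebra k K] [Algebra R K] [IsScalarTower R k K] [Algebra.IsAlgebraic k K]
    (n : ℕ) (hn : 2 ≤ n) :
    (∀ σ : Fin n → Fin n → Submodule R K,
      (∀ i r j : Fin n, i ≠ r → r ≠ j → i ≠ j → ∀ a ∈ σ i r, ∀ b ∈ σ r j, a * b ∈ σ i j) →
      (∀ i j : Fin n, i ≠ j → σ i j ≠ ⊥) →
      ∀ i j : Fin n, i ≠ j → ∀ a : K,
        ∀ g ∈ Subgroup.closure {h : GL (Fin n) K | ∃ p q : Fin n, p ≠ q ∧ ∃ b ∈ σ p q,
            (h : Matrix (Fin n) (Fin n) K) = Matrix.transvection p q b},
          (g : Matrix (Fin n) (Fin n) K) = Matrix.transvection i j a → a ∈ σ i j) ↔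
    (Function.Surjective (algebraMap R K) ∨
      (3 ≤ n ∧ (IsField R ∨ Function.Surjective (algebraMap k K)))) := by
  constructor
  · intro h
    by_contra hcon
    rw [not_or] at hcon
    obtain ⟨hRK, hrest⟩ := hcon
    have key : ∃ σ : Fin n → Fin n → Submodule R K, IsNet σ ∧
        (∀ i j : Fin n, i ≠ j → σ i j ≠ ⊥) ∧ ¬ IsClosedNet σ := by
      by_cases h3 : 3 ≤ n
      · have h' : ¬ (IsField R ∨ Function.Surjective (algebraMap k K)) := fun h' => hrest ⟨h3, h'⟩
        rw [not_or] at h'
        obtain ⟨A, B, I, θ, hA, hB, hI, hθB, hθA, hnet⟩ := exists_order (k := k) h'.1 h'.2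
        exact exists_not_closed hn A B I hA hB hI hθB hθA (Or.inr hnet)
      · obtain ⟨θ, hθ⟩ : ∃ θ : K, ∀ z, algebraMap R K z ≠ θ := by
          by_contra hcon
          push Not at hcon
          exact hRK hcon
        refine exists_not_closed hn 1 ⊤ ⊤ (Submodule.mem_one.mpr ⟨1, by simp⟩) trivial
          top_ne_bot (θ := θ) trivial ?_ (Or.inl (by omega))
        intro hmem
        obtain ⟨z, hz⟩ := Submodule.mem_one.mp hmem
        exact hθ z hz
    obtain ⟨σ, h1, h2, h3⟩ := key
    exact h3 (h σ h1 h2)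
  · intro h σ h1 h2
    refine closed_of_completable (σ := σ) h1 ?_
    rcases h with hRK | ⟨h3, hR | hk⟩
    · intro i j _ a _ b _ c hc
      obtain ⟨z, hz⟩ := hRK (a * b)
      rw [← hz, ← Algebra.smul_def]
      exact (σ i j).smul_mem z hc
    · exact completable_of h3 h1 h2 (overring_of_field (k := k) hR)
    · exact completable_of h3 h1 h2 (overring_of_pid hk)

end Pool.Agent.Results.MP_9bf48e_al.Classification
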