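import Mathlib
import Pool.Agent.MP_9bf48e_al.H8.Pairs

namespace Pool.Agent.Results.MP_9bf48e_al.PairsClosed

open Pool.Agent.MP_9bf48e_al.H8

/-- Let `K` be a field of characteristic zero containing a square root of `-m`, `m ≥ 1`, and let
`n ≥ 3`. There is an irreducible elementary net of order `n` of `ℤ`-submodules of `K` in which
every opposite pair is closed, and which is not closed. -/
theorem result (K : Type*) [Field K] [CharZero K] (m : ℕ) (hm : 0 < m) (θ : K)
    (hθ : θ ^ 2 = -(m : K)) (n : ℕ) (hn : 3 ≤ n) :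
    ∃ σ : Fin n → Fin n → Submodule ℤ K,
      (∀ i r j : Fin n, i ≠ r → r ≠ j → i ≠ j → ∀ a ∈ σ i r, ∀ b ∈ σ r j, a * b ∈ σ i j) ∧
      (∀ i j : Fin n, i ≠ j → σ i j ≠ ⊥) ∧
      (∀ i j : Fin n, i ≠ j → ∀ a : K,
        ∀ g ∈ Subgroup.closure {h : GL (Fin n) K |
            (∃ b ∈ σ i j, (h : Matrix (Fin n) (Fin n) K) = Matrix.transvection i j b) ∨
            ∃ b ∈ σ j i, (h : Matrix (Fin n) (Fin n) K) = Matrix.transvection j i b},
          (g : Matrix (Fin n) (Fin n) K) = Matrix.transvection i j a → a ∈ σ i j) ∧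
      ∃ i j : Fin n, i ≠ j ∧ ∃ a : K, a ∉ σ i j ∧
        ∃ g ∈ Subgroup.closure {h : GL (Fin n) K | ∃ p q : Fin n, p ≠ q ∧ ∃ b ∈ σ p q,
            (h : Matrix (Fin n) (Fin n) K) = Matrix.transvection p q b},
          (g : Matrix (Fin n) (Fin n) K) = Matrix.transvection i j a := by
  obtain ⟨f, c, u, hf, hc, hu, h2⟩ := quadratic K m hm θ hθ
  exact abstract hf c hc hu h2 hn

end Pool.Agent.Results.MP_9bf48e_al.PairsClosed
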